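import Pool.Agent.X312.IO.Defs
import Pool.Agent.X312.FK.Chow
import Pool.Agent.X312.RL.Rel

/-!
# Composition on the image of the cycle class map
-/

open CategoryTheory AlgebraicGeometry TensorProduct

universe u v

namespace Pool.Agent.X312.IO

open Module
open Pool.Agent.H914 Pool.Agent.H914.VarClass Pool.Agent.H914.VarClass.Obj
  Pool.Agent.H914.WeilCohomology Pool.Agent.Y133.Half Pool.Agent.Y133.Half.Sys
  Pool.Agent.H281R3.HT Pool.Agent.W536.RR Pool.Agent.X312.RL
open Pool.Agent.X312.FK (composite diagClass pf pb cup unitClass IsAlgClass)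

variable {k : Type u} [Field k] {𝒱 : VarClass k} {ops : CycleOps 𝒱}
  {W : WeilCohomology.{u, v} ops} {X Y Z P : 𝒱.Obj}

lemma rat_smul (q : ℚ) (x : W.H Z) : q • x = (algebraMap ℚ W.K q) • x := rfl

lemma cl_mem_img {j : ℕ} {z : Z.Cycles} (hz : Z.IsCyc j z) : W.cl Z z ∈ cycleImage W Z :=
  Submodule.subset_span ⟨j, z, hz, rfl⟩

lemma img_induction {p : W.H Z → Prop} (h0 : p 0) (hadd : ∀ a b, p a → p b → p (a + b))
    (hsmul : ∀ (q : ℚ) a, p a → p (q • a))
    (hcl : ∀ (j : ℕ) (z : Z.Cycles), Z.IsCyc j z → p (W.cl Z z)) {a : W.H Z}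
    (ha : a ∈ cycleImage W Z) : p a := by
  refine Submodule.span_induction (p := fun a _ => p a) ?_ h0 (fun a b _ _ => hadd a b)
    (fun q a _ => hsmul q a) ha
  rintro _ ⟨j, z, hz, rfl⟩
  exact hcl j z hz

lemma img_mul {a b : W.H Z} (ha : a ∈ cycleImage W Z) (hb : b ∈ cycleImage W Z) :
    a * b ∈ cycleImage W Z := by
  refine img_induction (p := fun a => a * b ∈ cycleImage W Z) ?_ ?_ ?_ ?_ ha
  · rw [zero_mul]; exact Submodule.zero_mem _
  · intro x y hx hy; rw [add_mul]; exact Submodule.add_mem _ hx hy
  · intro t x hx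
    rw [rat_smul, smul_mul_assoc]; exact Submodule.smul_mem _ t hx
  · intro j z hz
    refine img_induction (p := fun b => W.cl Z z * b ∈ cycleImage W Z) ?_ ?_ ?_ ?_ hb
    · rw [mul_zero]; exact Submodule.zero_mem _
    · intro x y hx hy; rw [mul_add]; exact Submodule.add_mem _ hx hy
    · intro t x hx
      rw [rat_smul, mul_smul_comm]; exact Submodule.smul_mem _ t hx
    · intro i w hw
      rw [← W.cl_mul]
      exact cl_mem_img (ops.mul_mem hz hw)

lemma img_map (g : X ⟶ Y) {a : W.H Y} (ha : a ∈ cycleImage W Y) :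
    W.map g a ∈ cycleImage W X := by
  refine img_induction (p := fun a => W.map g a ∈ cycleImage W X) ?_ ?_ ?_ ?_ ha
  · rw [map_zero]; exact Submodule.zero_mem _
  · intro x y hx hy; rw [map_add]; exact Submodule.add_mem _ hx hy
  · intro t x hx
    rw [rat_smul, map_smul]; exact Submodule.smul_mem _ t hx
  · intro j z hz
    rw [← W.cl_pull]
    exact cl_mem_img (ops.pull_mem g hz)

lemma img_push (g : X ⟶ Y) {a : W.H X} (ha : a ∈ cycleImage W X) :
    W.push g a ∈ cycleImage W Y := by
  refine img_induction (p := fun a => W.push g a ∈ cycleImage W Y) ?_ ?_ ?_ ?_ ha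
  · rw [map_zero]; exact Submodule.zero_mem _
  · intro x y hx hy; rw [map_add]; exact Submodule.add_mem _ hx hy
  · intro t x hx
    rw [rat_smul, map_smul]; exact Submodule.smul_mem _ t hx
  · intro j z hz
    by_cases h : X.dim ≤ j + Y.dim
    · rw [← W.cl_push]
      exact cl_mem_img (ops.push_mem g hz (q := j + Y.dim - X.dim) (by omega))
    · have h1 := W.push_mem g (W.cl_mem hz)
      rw [grZ_of_neg (by push_cast; omega)] at h1
      rw [(Submodule.mem_bot _).1 h1]
      exact Submodule.zero_mem _

lemma img_one : (1 : W.H Z) ∈ cycleImage W Z := by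
  rw [← W.cl_fund]
  exact cl_mem_img (j := 0) Z.V.fundCycle_mem

lemma img_alg {a : W.H Z} (ha : a ∈ cycleImage W Z) : a ∈ algSpan W Z := by
  refine img_induction (p := fun a => a ∈ algSpan W Z) ?_ ?_ ?_ ?_ ha
  · exact Submodule.zero_mem _
  · intro x y hx hy; exact Submodule.add_mem _ hx hy
  · intro t x hx
    rw [rat_smul]; exact Submodule.smul_mem _ _ hx
  · intro j z hz
    exact cl_mem_algSpan hz

lemma img_comp {a : W.H (X.prod Y)} {b : W.H (Y.prod Z)} (ha : a ∈ cycleImage W _)
    (hb : b ∈ cycleImage W _) : composite W a b ∈ cycleImage W _ :=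
  img_push _ (img_mul (img_map _ ha) (img_map _ hb))

lemma img_diag : diagClass W X ∈ cycleImage W (X.prod X) := img_push _ img_one

lemma corr_comp_alg {a : W.H (X.prod Y)} {b : W.H (Y.prod Z)} (hb : b ∈ cycleImage W _) :
    W.corr (composite W a b) = W.corr b ∘ₗ W.corr a := by
  rw [composite, pf, cup, pb, pb]
  exact corr_comp' _ ((algSys W).even (img_alg hb))

lemma comp_diag {a : W.H (X.prod Y)} : composite W a (diagClass W Y) = a := by
  apply corrL_injective _ _
  change W.corr (composite W a (diagClass W Y)) = W.corr a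
  rw [corr_comp_alg img_diag, diagClass, pf, unitClass, corr_diag_one]
  rfl

lemma comp_assoc_img {T : 𝒱.Obj} {a : W.H (X.prod Y)} {b : W.H (Y.prod Z)} {c : W.H (Z.prod T)}
    (hb : b ∈ cycleImage W _) (hc : c ∈ cycleImage W _) :
    composite W a (composite W b c) = composite W (composite W a b) c := by
  apply corrL_injective _ _
  change W.corr (composite W a (composite W b c)) = W.corr (composite W (composite W a b) c)
  rw [corr_comp_alg (img_comp hb hc), corr_comp_alg hc, corr_comp_alg hc, corr_comp_alg hb,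
    LinearMap.comp_assoc]

/-- The composition as a bilinear map over `ℚ` on the images of the cycle class maps. -/
noncomputable def compQ (W : WeilCohomology.{u, v} ops) (X Y Z : 𝒱.Obj) :
    cycleImage W (X.prod Y) →ₗ[ℚ] cycleImage W (Y.prod Z) →ₗ[ℚ] cycleImage W (X.prod Z) :=
  LinearMap.mk₂ ℚ (fun a b => ⟨composite W a.1 b.1, img_comp a.2 b.2⟩)
    (fun a a' b => Subtype.ext (by
      change W.push _ (W.map _ (a.1 + a'.1) * W.map _ b.1) =
        W.push _ (W.map _ a.1 * W.map _ b.1) + W.push _ (W.map _ a'.1 * W.map _ b.1)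
      rw [map_add, add_mul, map_add]))
    (fun q a b => Subtype.ext (by
      change W.push _ (W.map _ (algebraMap ℚ W.K q • a.1) * W.map _ b.1) =
        algebraMap ℚ W.K q • W.push _ (W.map _ a.1 * W.map _ b.1)
      rw [map_smul, smul_mul_assoc, map_smul]))
    (fun a b b' => Subtype.ext (by
      change W.push _ (W.map _ a.1 * W.map _ (b.1 + b'.1)) =
        W.push _ (W.map _ a.1 * W.map _ b.1) + W.push _ (W.map _ a.1 * W.map _ b'.1)
      rw [map_add, mul_add, map_add]))
    (fun q a b => Subtype.ext (by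
      change W.push _ (W.map _ a.1 * W.map _ (algebraMap ℚ W.K q • b.1)) =
        algebraMap ℚ W.K q • W.push _ (W.map _ a.1 * W.map _ b.1)
      rw [map_smul, mul_smul_comm, map_smul]))

/-- The composition after extension of scalars. -/
noncomputable def compK (W : WeilCohomology.{u, v} ops) (X Y Z : 𝒱.Obj) :
    (W.K ⊗[ℚ] cycleImage W (X.prod Y)) →ₗ[W.K]
      (W.K ⊗[ℚ] cycleImage W (Y.prod Z)) →ₗ[W.K] (W.K ⊗[ℚ] cycleImage W (X.prod Z)) :=
  LinearMap.liftBaseChange W.K
    ((LinearMap.baseChangeHom ℚ W.K (cycleImage W (Y.prod Z)) (cycleImage W (X.prod Z))) ∘ₗ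
      compQ W X Y Z)

lemma compK_tmul (s t : W.K) (a : cycleImage W (X.prod Y)) (b : cycleImage W (Y.prod Z)) :
    compK W X Y Z (s ⊗ₜ a) (t ⊗ₜ b) = (s * t) ⊗ₜ compQ W X Y Z a b := by
  rw [compK, LinearMap.liftBaseChange_tmul, LinearMap.smul_apply, LinearMap.comp_apply]
  change s • (t ⊗ₜ[ℚ] (compQ W X Y Z a b)) = _
  rw [TensorProduct.smul_tmul', smul_eq_mul]

lemma iota_tmul (t : W.K) (a : cycleImage W Z) : iota W Z (t ⊗ₜ a) = t • (a : W.H Z) := rfl

lemma comp_add_left (a a' : W.H (X.prod Y)) (b : W.H (Y.prod Z)) :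
    composite W (a + a') b = composite W a b + composite W a' b := by
  change W.push _ (W.map _ (a + a') * W.map _ b) =
    W.push _ (W.map _ a * W.map _ b) + W.push _ (W.map _ a' * W.map _ b)
  rw [map_add, add_mul, map_add]

lemma comp_add_right (a : W.H (X.prod Y)) (b b' : W.H (Y.prod Z)) :
    composite W a (b + b') = composite W a b + composite W a b' := by
  change W.push _ (W.map _ a * W.map _ (b + b')) =
    W.push _ (W.map _ a * W.map _ b) + W.push _ (W.map _ a * W.map _ b')
  rw [map_add, mul_add, map_add]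

lemma comp_zero_left (b : W.H (Y.prod Z)) : composite W (0 : W.H (X.prod Y)) b = 0 := by
  change W.push _ (W.map _ 0 * W.map _ b) = 0
  rw [map_zero, zero_mul, map_zero]

lemma comp_zero_right (a : W.H (X.prod Y)) : composite W a (0 : W.H (Y.prod Z)) = 0 := by
  change W.push _ (W.map _ a * W.map _ 0) = 0
  rw [map_zero, mul_zero, map_zero]

lemma comp_smul_smul (s t : W.K) (a : W.H (X.prod Y)) (b : W.H (Y.prod Z)) :
    composite W (s • a) (t • b) = (s * t) • composite W a b := by
  change W.push _ (W.map _ (s • a) * W.map _ (t • b)) = (s * t) • W.push _ (W.map _ a * W.map _ b)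
  rw [map_smul, map_smul, smul_mul_assoc, mul_smul_comm, map_smul, map_smul, smul_smul]

lemma iota_comp (x : W.K ⊗[ℚ] cycleImage W (X.prod Y)) (y : W.K ⊗[ℚ] cycleImage W (Y.prod Z)) :
    iota W _ (compK W X Y Z x y) = composite W (iota W _ x) (iota W _ y) := by
  induction x using TensorProduct.induction_on with
  | zero => rw [map_zero, LinearMap.zero_apply, map_zero, map_zero, comp_zero_left]
  | add x x' hx hx' =>
    rw [map_add, LinearMap.add_apply, map_add, map_add, hx, hx', comp_add_left]
  | tmul s a =>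
    induction y using TensorProduct.induction_on with
    | zero => rw [map_zero, map_zero, map_zero, comp_zero_right]
    | add y y' hy hy' => rw [map_add, map_add, map_add, hy, hy', comp_add_right]
    | tmul t b =>
      rw [compK_tmul, iota_tmul, iota_tmul, iota_tmul, comp_smul_smul]
      rfl

lemma compK_diag (x : W.K ⊗[ℚ] cycleImage W (X.prod Y)) :
    compK W X Y Y x (1 ⊗ₜ ⟨diagClass W Y, img_diag⟩) = x := by
  induction x using TensorProduct.induction_on with
  | zero => rw [map_zero, LinearMap.zero_apply]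
  | add x x' hx hx' => rw [map_add, LinearMap.add_apply, hx, hx']
  | tmul s a =>
    rw [compK_tmul, mul_one]
    congr 1
    exact Subtype.ext comp_diag

lemma compK_assoc {T : 𝒱.Obj} (x : W.K ⊗[ℚ] cycleImage W (X.prod Y))
    (y : W.K ⊗[ℚ] cycleImage W (Y.prod Z)) (z : W.K ⊗[ℚ] cycleImage W (Z.prod T)) :
    compK W X Y T x (compK W Y Z T y z) = compK W X Z T (compK W X Y Z x y) z := by
  induction x using TensorProduct.induction_on with
  | zero => rw [map_zero, LinearMap.zero_apply, map_zero, LinearMap.zero_apply, map_zero,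
      LinearMap.zero_apply]
  | add x x' hx hx' =>
    rw [map_add, LinearMap.add_apply, map_add, LinearMap.add_apply, map_add,
      LinearMap.add_apply, hx, hx']
  | tmul s a =>
    induction y using TensorProduct.induction_on with
    | zero => rw [map_zero, LinearMap.zero_apply, map_zero, map_zero, map_zero,
        LinearMap.zero_apply]
    | add y y' hy hy' =>
      rw [map_add, LinearMap.add_apply, map_add, map_add, map_add, LinearMap.add_apply, hy, hy']
    | tmul t b =>
      induction z using TensorProduct.induction_on with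
      | zero => rw [map_zero, map_zero, map_zero]
      | add z z' hz hz' => rw [map_add, map_add, map_add, hz, hz']
      | tmul r c =>
        rw [compK_tmul, compK_tmul, compK_tmul, compK_tmul, mul_assoc]
        congr 1
        exact Subtype.ext (comp_assoc_img b.2 c.2)

end Pool.Agent.X312.IO
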