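import Pool.Agent.X312.FK.ChowDefs
import Mathlib.RingTheory.TensorProduct.Basic

/-!
# The image of the cycle class map, and the map to the cohomology from its extension of scalars
-/

open CategoryTheory AlgebraicGeometry TensorProduct

universe u v

namespace Pool.Agent.X312.IO

open Pool.Agent.H914 Pool.Agent.H914.VarClass Pool.Agent.H914.VarClass.Obj
  Pool.Agent.H914.WeilCohomology

variable {k : Type u} [Field k] {𝒱 : VarClass k} {ops : CycleOps 𝒱}

/-- The cohomology as a vector space over the rational numbers. -/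
noncomputable instance ratModule (W : WeilCohomology.{u, v} ops) (Z : 𝒱.Obj) :
    Module ℚ (W.H Z) := Module.compHom (W.H Z) (algebraMap ℚ W.K)

/-- The image of the cycle class map: the `ℚ`-subspace of `H(Z)` generated by the classes of cycles. -/
noncomputable def cycleImage (W : WeilCohomology.{u, v} ops) (Z : 𝒱.Obj) :
    Submodule ℚ (W.H Z) :=
  Submodule.span ℚ {x | ∃ (j : ℕ) (z : Z.Cycles), Z.IsCyc j z ∧ x = W.cl Z z}

instance ratTower (W : WeilCohomology.{u, v} ops) (Z : 𝒱.Obj) :
    IsScalarTower ℚ W.K (W.H Z) :=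
  ⟨fun q t x => by
    change (q • t) • x = (algebraMap ℚ W.K q) • (t • x)
    rw [Algebra.smul_def q t, mul_smul]⟩

/-- The map `ι : K ⊗ Im(cl) → H(Z)`, `λ ⊗ c ↦ λ c`, over the rational numbers. -/
noncomputable def iota (W : WeilCohomology.{u, v} ops) (Z : 𝒱.Obj) :
    W.K ⊗[ℚ] cycleImage W Z →ₗ[W.K] W.H Z :=
  LinearMap.liftBaseChange W.K (cycleImage W Z).subtype

end Pool.Agent.X312.IO
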