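import Pool.Agent.H914R2.Weil

/-!
# Classes of cycles with rational coefficients and their relations
-/

open CategoryTheory AlgebraicGeometry

universe u v

namespace Pool.Agent.X312.IO

open Pool.Agent.H914 Pool.Agent.H914.VarClass Pool.Agent.H914.VarClass.Obj
  Pool.Agent.H914.WeilCohomology

variable {k : Type u} [Field k] {𝒱 : VarClass k} {ops : CycleOps 𝒱}

/-- The class `a` is in the image of the cycle class map: a linear combination of classes of cycles with
rational coefficients. -/
def IsRatClass (W : WeilCohomology.{u, v} ops) {Z : 𝒱.Obj} (a : W.H Z) : Prop :=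
  a ∈ AddSubgroup.closure
    {x | ∃ (q : ℚ) (j : ℕ) (z : Z.Cycles), Z.IsCyc j z ∧ x = (q : W.K) • W.cl Z z}

/-- The classes `a i` are linearly independent over the rational numbers. -/
def RatIndep (W : WeilCohomology.{u, v} ops) {Z : 𝒱.Obj} {r : ℕ} (a : Fin r → W.H Z) : Prop :=
  ∀ q : Fin r → ℚ, ∑ i, (q i : W.K) • a i = 0 → ∀ i, q i = 0

/-- The map `ι` for `Z` is injective: linearly independent elements, over the rational numbers, of the
image of the cycle class map are linearly independent over the field of coefficients. -/
def IotaInjective (W : WeilCohomology.{u, v} ops) (Z : 𝒱.Obj) : Prop :=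
  ∀ (r : ℕ) (a : Fin r → W.H Z), (∀ i, IsRatClass W (a i)) → RatIndep W a →
    LinearIndependent W.K a

/-- The dimension of the kernel of `ι` for `Z` is at least `x`: there are `r` linearly independent
elements, over the rational numbers, of the image of the cycle class map which generate a subspace of
`H(Z)` of dimension at most `r - x`. -/
def KerIotaAtLeast (W : WeilCohomology.{u, v} ops) (Z : 𝒱.Obj) (x : ℝ) : Prop :=
  ∃ (r : ℕ) (a : Fin r → W.H Z), (∀ i, IsRatClass W (a i)) ∧ RatIndep W a ∧
    x + Module.finrank W.K (Submodule.span W.K (Set.range a)) ≤ r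

end Pool.Agent.X312.IO
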