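import Pool.Agent.X312.IO.Main
import Pool.Agent.X312.IO.ElemDefs

/-!
# The gap law for the kernel of `ι`, elementary form
-/

open CategoryTheory AlgebraicGeometry TensorProduct

universe u v

namespace Pool.Agent.X312.IO

open Module
open Pool.Agent.H914 Pool.Agent.H914.VarClass Pool.Agent.H914.VarClass.Obj
  Pool.Agent.H914.WeilCohomology Pool.Agent.Y133.Half
open Pool.Agent.X312.FK (DimAtLeast gapBound)

variable {k : Type u} [Field k] {𝒱 : VarClass k} {ops : CycleOps 𝒱}
  {W : WeilCohomology.{u, v} ops} {Z : 𝒱.Obj}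

lemma cast_smul (q : ℚ) (x : W.H Z) : (q : W.K) • x = q • x := by
  rw [rat_smul, eq_ratCast]

lemma img_iff {a : W.H Z} : IsRatClass W a ↔ a ∈ cycleImage W Z := by
  constructor
  · intro h
    refine AddSubgroup.closure_induction (p := fun a _ => a ∈ cycleImage W Z) ?_ ?_ ?_ ?_ h
    · rintro _ ⟨q, j, z, hz, rfl⟩
      rw [cast_smul]
      exact Submodule.smul_mem _ q (cl_mem_img hz)
    · exact Submodule.zero_mem _
    · intro a b _ _ ha hb; exact Submodule.add_mem _ ha hb
    · intro a _ ha; exact Submodule.neg_mem _ ha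
  · intro h
    have key : ∀ b ∈ cycleImage W Z, ∀ q : ℚ, IsRatClass W (q • b) := by
      intro b hb
      refine Submodule.span_induction (p := fun b _ => ∀ q : ℚ, IsRatClass W (q • b))
        ?_ ?_ ?_ ?_ hb
      · rintro _ ⟨j, z, hz, rfl⟩ q
        exact AddSubgroup.subset_closure ⟨q, j, z, hz, (cast_smul q _).symm⟩
      · intro q
        rw [smul_zero]; exact AddSubgroup.zero_mem _
      · intro a b _ _ ha hb q
        rw [smul_add]; exact AddSubgroup.add_mem _ (ha q) (hb q)
      · intro t a _ ha q
        rw [smul_smul]; exact ha _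
    have h1 := key a h 1
    rwa [one_smul] at h1

/-- From the tensor product to the elementary form: injectivity. -/
lemma elem_inj (h : Function.Injective (iota W Z)) : IotaInjective W Z := by
  intro r a ha hind
  rw [Fintype.linearIndependent_iff]
  intro t ht i
  have ha' : ∀ i, a i ∈ cycleImage W Z := fun i => img_iff.1 (ha i)
  set y : W.K ⊗[ℚ] cycleImage W Z := ∑ i, t i ⊗ₜ ⟨a i, ha' i⟩ with hy
  have h1 : iota W Z y = 0 := by
    rw [hy, map_sum]
    exact ht
  have h2 : y = 0 := h (by rw [h1, map_zero])
  rw [← Module.forall_dual_apply_eq_zero_iff ℚ]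
  intro φ
  have h3 : ev W Z φ y = 0 := by rw [h2, map_zero]
  rw [hy, map_sum] at h3
  have h4 : ∑ i, ((φ (t i) : ℚ) : W.K) • a i = 0 := by
    have h5 := congrArg (fun c : cycleImage W Z => (c : W.H Z)) h3
    change ((∑ i, ev W Z φ (t i ⊗ₜ ⟨a i, ha' i⟩) : cycleImage W Z) : W.H Z) = 0 at h5
    rw [Submodule.coe_sum] at h5
    rw [← h5]
    refine Finset.sum_congr rfl fun i _ => ?_
    rw [ev_tmul, cast_smul]
    rfl
  exact hind (fun i => φ (t i)) h4 i

/-- From the tensor product to the elementary form: the dimension of the kernel. -/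
lemma elem_ker {x : ℝ} (h : DimAtLeast W.K (LinearMap.ker (iota W Z)) x) :
    KerIotaAtLeast W Z x := by
  classical
  obtain ⟨r', y, hx, hy⟩ := h
  set b := Basis.ofVectorSpace ℚ (cycleImage W Z) with hb
  set B := b.baseChange W.K with hB
  set S := Finset.univ.biUnion (fun j => (B.repr (y j).1).support) with hS
  let e : Fin S.card ≃ S := S.equivFin.symm
  let a : Fin S.card → W.H Z := fun i => ((b (e i).1 : cycleImage W Z) : W.H Z)
  have hzero : ∀ j, ∀ i ∉ S, B.repr (y j).1 i = 0 := by
    intro j i hi
    by_contra hne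
    exact hi (Finset.mem_biUnion.2 ⟨j, Finset.mem_univ j, Finsupp.mem_support_iff.2 hne⟩)
  have hiota : ∀ i, iota W Z (B i) = ((b i : cycleImage W Z) : W.H Z) := by
    intro i
    rw [hB, Basis.baseChange_apply, iota_tmul, one_smul]
  set L := Fintype.linearCombination W.K a with hL
  let c : Fin r' → Fin S.card → W.K := fun j i => B.repr (y j).1 (e i).1
  have hc : ∀ j, c j ∈ LinearMap.ker L := by
    intro j
    rw [LinearMap.mem_ker, hL, Fintype.linearCombination_apply]
    have h1 : iota W Z (y j).1 = 0 := (y j).2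
    have h2 : (y j).1 = ∑ i ∈ S, B.repr (y j).1 i • B i := by
      conv_lhs => rw [← B.linearCombination_repr (y j).1]
      rw [Finsupp.linearCombination_apply, Finsupp.sum]
      refine Finset.sum_subset ?_ ?_
      · intro i hi
        exact Finset.mem_biUnion.2 ⟨j, Finset.mem_univ j, hi⟩
      · intro i _ hi
        rw [Finsupp.notMem_support_iff.1 hi, zero_smul]
    rw [h2, map_sum] at h1
    rw [← h1, ← Finset.sum_coe_sort S, ← Equiv.sum_comp e]
    refine Finset.sum_congr rfl fun i _ => ?_
    rw [map_smul, hiota]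
  have hind : LinearIndependent W.K (fun j => (⟨c j, hc j⟩ : LinearMap.ker L)) := by
    refine LinearIndependent.of_comp (Submodule.subtype _) ?_
    change LinearIndependent W.K c
    have hy' := Fintype.linearIndependent_iff.1 hy
    rw [Fintype.linearIndependent_iff]
    intro t ht j
    refine hy' t ?_ j
    apply Subtype.ext
    apply B.repr.injective
    rw [Submodule.coe_sum, Submodule.coe_zero, map_sum, map_zero]
    ext i
    rw [Finsupp.finset_sum_apply, Finsupp.zero_apply]
    by_cases hi : i ∈ S
    · have h3 := congrFun ht (e.symm ⟨i, hi⟩)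
      rw [Finset.sum_apply, Pi.zero_apply] at h3
      rw [← h3]
      refine Finset.sum_congr rfl fun j _ => ?_
      rw [Submodule.coe_smul, map_smul, Finsupp.smul_apply, Pi.smul_apply]
      change _ = t j • B.repr (y j).1 (e (e.symm ⟨i, hi⟩)).1
      rw [Equiv.apply_symm_apply]
    · refine Finset.sum_eq_zero fun j _ => ?_
      rw [Submodule.coe_smul, map_smul, Finsupp.smul_apply, hzero j i hi, smul_zero]
  have h5 := hind.fintype_card_le_finrank
  rw [Fintype.card_fin] at h5
  have h6 := LinearMap.finrank_range_add_finrank_ker L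
  rw [Module.finrank_fin_fun, hL, Fintype.range_linearCombination, ← hL] at h6
  refine ⟨S.card, a, fun i => img_iff.2 (b (e i).1).2, ?_, ?_⟩
  · intro q hq i
    have h7 : ∑ i, q i • b (e i).1 = 0 := by
      apply Subtype.ext
      rw [Submodule.coe_sum, Submodule.coe_zero, ← hq]
      refine Finset.sum_congr rfl fun i _ => ?_
      rw [cast_smul]
      rfl
    have h8 : LinearIndependent ℚ (fun i => b (e i).1) :=
      b.linearIndependent.comp _ fun i i' h => e.injective (Subtype.ext h)
    exact Fintype.linearIndependent_iff.1 h8 q h7 i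
  · have h9 : (finrank W.K (Submodule.span W.K (Set.range a)) : ℝ) + finrank W.K (LinearMap.ker L) =
        S.card := by exact_mod_cast h6
    have h10 : (r' : ℝ) ≤ finrank W.K (LinearMap.ker L) := by exact_mod_cast h5
    linarith

/-- **The gap law for the kernel of `ι`, elementary form.** -/
theorem iota_law' (X Y : 𝒱.Obj) (hn : ∀ n, HomEqNum W (pw X n)) (m : ℕ) :
    IotaInjective W (Y.prod (pw X m)) ∨
    ∀ n : ℕ, KerIotaAtLeast W (Y.prod (pw X n))
      (gapBound (finrank W.K (W.H X)) (cycRank ops (pw X n)) m n) := by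
  rcases iota_law X Y hn m with h | h
  · exact Or.inl (elem_inj h)
  · exact Or.inr fun n => elem_ker (h n)

end Pool.Agent.X312.IO
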