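import Pool.Agent.X312.IO.Alg
import Pool.Agent.X312.FK.PrimChow

/-!
# The gap law for the kernel of `ι`
-/

open CategoryTheory AlgebraicGeometry TensorProduct

universe u v

namespace Pool.Agent.X312.IO

open Module
open Pool.Agent.H914 Pool.Agent.H914.VarClass Pool.Agent.H914.VarClass.Obj
  Pool.Agent.H914.WeilCohomology Pool.Agent.Y133.Half Pool.Agent.Y133.Half.Sys
  Pool.Agent.H281R3.HT Pool.Agent.W536.RR Pool.Agent.X312.RL
open Pool.Agent.X312.FK (composite diagClass pf pb cup unitClass IsAlgClass ChowData ChowModule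
  DimAtLeast gapBound chow_law IrreducibleIn)
open Pool.Agent.X312.FC (corrRank rankBound)

variable {k : Type u} [Field k] {𝒱 : VarClass k} {ops : CycleOps 𝒱}
  {W : WeilCohomology.{u, v} ops} {X Y Z P : 𝒱.Obj}

/-- Intersection numbers are rational. -/
lemma tr_rat {a b : W.H Z} (ha : a ∈ cycleImage W Z) (hb : b ∈ cycleImage W Z) :
    ∃ q : ℚ, W.tr Z (a * b) = algebraMap ℚ W.K q := by
  refine img_induction (p := fun a => ∃ q : ℚ, W.tr Z (a * b) = algebraMap ℚ W.K q)
    ?_ ?_ ?_ ?_ ha
  · exact ⟨0, by rw [zero_mul, map_zero, map_zero]⟩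
  · rintro x y ⟨q, hq⟩ ⟨r, hr⟩
    exact ⟨q + r, by rw [add_mul, map_add, hq, hr, map_add]⟩
  · rintro t x ⟨q, hq⟩
    exact ⟨t * q, by rw [rat_smul, smul_mul_assoc, map_smul, hq, map_mul, smul_eq_mul]⟩
  · intro j z hz
    refine img_induction (p := fun b => ∃ q : ℚ, W.tr Z (W.cl Z z * b) = algebraMap ℚ W.K q)
      ?_ ?_ ?_ ?_ hb
    · exact ⟨0, by rw [mul_zero, map_zero, map_zero]⟩
    · rintro x y ⟨q, hq⟩ ⟨r, hr⟩
      exact ⟨q + r, by rw [mul_add, map_add, hq, hr, map_add]⟩
    · rintro t x ⟨q, hq⟩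
      exact ⟨t * q, by rw [rat_smul, mul_smul_comm, map_smul, hq, map_mul, smul_eq_mul]⟩
    · intro i w hw
      rw [← W.cl_mul]
      have h1 := ops.mul_mem hz hw
      by_cases h : j + i = Z.dim
      · rw [h] at h1
        exact ⟨Z.V.degCycle (ops.mul z w), by rw [W.tr_cl h1, eq_ratCast]⟩
      · exact ⟨0, by rw [W.tr_eq_zero (W.cl_mem h1) (by omega), map_zero]⟩

/-- The partial evaluation at a linear functional on the field of coefficients. -/
noncomputable def ev (W : WeilCohomology.{u, v} ops) (Z : 𝒱.Obj) (φ : W.K →ₗ[ℚ] ℚ) :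
    W.K ⊗[ℚ] cycleImage W Z →ₗ[ℚ] cycleImage W Z :=
  (TensorProduct.lid ℚ (cycleImage W Z)).toLinearMap ∘ₗ
    LinearMap.rTensor (cycleImage W Z) φ

lemma ev_tmul (φ : W.K →ₗ[ℚ] ℚ) (t : W.K) (a : cycleImage W Z) :
    ev W Z φ (t ⊗ₜ a) = φ t • a := by
  rw [ev, LinearMap.comp_apply, LinearMap.rTensor_tmul]
  exact TensorProduct.lid_tmul _ _

lemma tr_ev (φ : W.K →ₗ[ℚ] ℚ) (x : W.K ⊗[ℚ] cycleImage W Z) {b : W.H Z}
    (hb : b ∈ cycleImage W Z) :
    W.tr Z ((ev W Z φ x : cycleImage W Z) * b) =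
      algebraMap ℚ W.K (φ (W.tr Z (iota W Z x * b))) := by
  induction x using TensorProduct.induction_on with
  | zero => rw [map_zero, map_zero, Submodule.coe_zero, zero_mul, map_zero, map_zero, map_zero]
  | add x x' hx hx' =>
    rw [map_add, map_add, Submodule.coe_add, add_mul, add_mul, map_add, map_add, map_add,
      map_add, hx, hx']
  | tmul t a =>
    obtain ⟨q, hq⟩ := tr_rat a.2 hb
    rw [ev_tmul, iota_tmul, Submodule.coe_smul, rat_smul, smul_mul_assoc, smul_mul_assoc,
      map_smul, map_smul, hq, smul_eq_mul, smul_eq_mul]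
    have h1 : t * algebraMap ℚ W.K q = q • t := by rw [Algebra.smul_def, mul_comm]
    rw [h1, map_smul, smul_eq_mul, map_mul, mul_comm]

/-- If homological and numerical equivalence agree on `Z` then `ι` is injective. -/
theorem iota_inj (h : HomEqNum W Z) : Function.Injective (iota W Z) := by
  rw [injective_iff_map_eq_zero]
  intro x hx
  have h1 : ∀ φ : W.K →ₗ[ℚ] ℚ, ev W Z φ x = 0 := by
    intro φ
    apply Subtype.ext
    refine Pool.Agent.Y129.homEqNum_algSpan h (img_alg (ev W Z φ x).2)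
      (mem_transc.2 fun c hc => ?_)
    refine algSpan_induction
      (p := fun c => W.tr Z (((ev W Z φ x : cycleImage W Z) : W.H Z) * c) = 0) ?_ ?_ ?_ ?_ hc
    · rw [mul_zero, map_zero]
    · intro a b ha hb; rw [mul_add, map_add, ha, hb, add_zero]
    · intro t a ha; rw [mul_smul_comm, map_smul, ha, smul_zero]
    · intro j z hz
      rw [tr_ev φ x (cl_mem_img hz), hx, zero_mul, map_zero, map_zero, map_zero]
  set b := Basis.ofVectorSpace ℚ (cycleImage W Z) with hb
  have h2 : ∀ (φ : W.K →ₗ[ℚ] ℚ) (y : W.K ⊗[ℚ] cycleImage W Z) (i : _),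
      φ ((b.baseChange W.K).repr y i) = b.repr (ev W Z φ y) i := by
    intro φ y i
    induction y using TensorProduct.induction_on with
    | zero => rw [map_zero, map_zero, map_zero, Finsupp.zero_apply, Finsupp.zero_apply, map_zero]
    | add y y' hy hy' =>
      rw [map_add, map_add, map_add, Finsupp.add_apply, Finsupp.add_apply, map_add, hy, hy']
    | tmul t a =>
      rw [Basis.baseChange_repr_tmul, ev_tmul, map_smul, map_smul, Finsupp.smul_apply,
        smul_eq_mul, smul_eq_mul, mul_comm]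
  apply (b.baseChange W.K).repr.injective
  rw [map_zero]
  ext i
  rw [Finsupp.zero_apply]
  rw [← Module.forall_dual_apply_eq_zero_iff ℚ]
  intro φ
  rw [h2, h1, map_zero, Finsupp.zero_apply]

/-- The category of correspondences `K ⊗ Im(cl)`. -/
@[reducible] noncomputable def data (W : WeilCohomology.{u, v} ops) : ChowData W where
  A X Y := W.K ⊗[ℚ] cycleImage W (X.prod Y)
  one X := 1 ⊗ₜ ⟨diagClass W X, img_diag⟩
  comp {X Y Z} a b := compK W X Y Z a b
  cl {X Y} a := iota W (X.prod Y) a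

lemma data_isChow : (data W).IsChow where
  cl_add a b := map_add _ a b
  cl_smul t a := map_smul _ t a
  cl_one X := by
    change iota W _ (1 ⊗ₜ _) = _
    rw [iota_tmul, one_smul]
  cl_comp a b := iota_comp a b
  range_cl X Y h := by
    constructor
    · rintro ⟨a, rfl⟩
      change iota W _ a ∈ algSpan W _
      induction a using TensorProduct.induction_on with
      | zero => rw [map_zero]; exact Submodule.zero_mem _
      | add a b ha hb => rw [map_add]; exact Submodule.add_mem _ ha hb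
      | tmul t c =>
        rw [iota_tmul]
        exact Submodule.smul_mem _ _ (img_alg c.2)
    · intro hh
      refine algSpan_induction (p := fun h => ∃ a : (data W).A X Y, (data W).cl a = h)
        ?_ ?_ ?_ ?_ hh
      · exact ⟨0, map_zero _⟩
      · rintro x y ⟨a, rfl⟩ ⟨b, rfl⟩
        exact ⟨a + b, map_add _ _ _⟩
      · rintro t x ⟨a, rfl⟩
        exact ⟨t • a, map_smul _ _ _⟩
      · intro j z hz
        refine ⟨1 ⊗ₜ ⟨W.cl _ z, cl_mem_img hz⟩, ?_⟩
        change iota W _ (1 ⊗ₜ _) = _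
        rw [iota_tmul, one_smul]

lemma data_numNil (h : HomEqNum W (P.prod P)) : (data W).NumNil P := by
  intro a ha
  have h0 : iota W _ a = 0 := by
    have hmem : iota W _ a ∈ algSpan W _ := (data_isChow.range_cl P P _).1 ⟨a, rfl⟩
    refine Pool.Agent.Y129.homEqNum_algSpan h hmem (mem_transc.2 fun c hc => ?_)
    obtain ⟨b, rfl⟩ := (data_isChow.range_cl P P c).2 hc
    exact ha b
  have h1 : a = 0 := by
    apply iota_inj h
    rw [h0, map_zero]
  refine ⟨1, ?_⟩
  change compK W P P P (_) a = 0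
  rw [h1, map_zero]

/-- The kernels of the maps `ι` on `Y × Z` as a functor. -/
@[reducible] noncomputable def kerMod (W : WeilCohomology.{u, v} ops) (Y : 𝒱.Obj) :
    ChowModule (data W) where
  M Z := LinearMap.ker (iota W (Y.prod Z))
  act {Z Z'} a x := ⟨compK W Y Z Z' x.1 a, by
    rw [LinearMap.mem_ker, iota_comp, LinearMap.mem_ker.1 x.2, comp_zero_left]⟩

lemma kerMod_isFunctor (Y : 𝒱.Obj) : (kerMod W Y).IsFunctor where
  act_add a x y := Subtype.ext (by
    change compK W _ _ _ (x.1 + y.1) a = compK W _ _ _ x.1 a + compK W _ _ _ y.1 a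
    rw [map_add, LinearMap.add_apply])
  act_smul a t x := Subtype.ext (by
    change compK W _ _ _ (t • x.1) a = t • compK W _ _ _ x.1 a
    rw [map_smul, LinearMap.smul_apply])
  add_act a b x := Subtype.ext (by
    change compK W _ _ _ x.1 (a + b) = compK W _ _ _ x.1 a + compK W _ _ _ x.1 b
    rw [map_add])
  smul_act t a x := Subtype.ext (by
    change compK W _ _ _ x.1 (t • a) = t • compK W _ _ _ x.1 a
    rw [map_smul])
  one_act X x := Subtype.ext (compK_diag x.1)
  comp_act a b x := Subtype.ext (compK_assoc x.1 a b)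

/-- The vanishing law for functors on correspondences. -/
lemma chow_zero {C : ChowData W} {T : ChowModule C} (hC : C.IsChow) (hT : T.IsFunctor)
    (X : 𝒱.Obj) (hX : ∀ n, C.NumNil (pw X n)) (hn : ∀ n, HomEqNum W (pw X n)) (m : ℕ) :
    (∀ x : T.M (pw X m), x = 0) ∨
    ∀ n : ℕ, DimAtLeast W.K (T.M (pw X n))
      (gapBound (finrank W.K (W.H X)) (cycRank ops (pw X n)) m n) := by
  rcases chow_law hC hT X hX hn (N' := fun _ => ⊥) (N := fun _ => ⊤)
    (Pool.Agent.X312.FK.bot_st hT) (fun _ _ _ _ _ => Submodule.mem_top) m with h | h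
  · exact Or.inl fun x => (Submodule.mem_bot W.K).1 (h Submodule.mem_top)
  · right
    intro n
    obtain ⟨r, a, h1, h2, h3⟩ := h n
    exact ⟨r, a, h1, LinearIndependent.of_comp (⊥ : Submodule W.K (T.M (pw X n))).mkQ h2⟩

/-- **The gap law for the kernel of `ι`.** -/
theorem iota_law (X Y : 𝒱.Obj) (hn : ∀ n, HomEqNum W (pw X n)) (m : ℕ) :
    Function.Injective (iota W (Y.prod (pw X m))) ∨
    ∀ n : ℕ, DimAtLeast W.K (LinearMap.ker (iota W (Y.prod (pw X n))))
      (gapBound (finrank W.K (W.H X)) (cycRank ops (pw X n)) m n) := by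
  have hX : ∀ n, (data W).NumNil (pw X n) := fun n =>
    data_numNil ((homEqNum_iso (pwAdd X n n)).2 (hn _))
  rcases chow_zero (data_isChow (W := W)) (kerMod_isFunctor Y) X hX hn m with h | h
  · left
    rw [injective_iff_map_eq_zero]
    intro x hx
    exact congrArg Subtype.val (h (⟨x, hx⟩ : LinearMap.ker (iota W (Y.prod (pw X m)))))
  · right
    exact h

/-- **The gap law for the kernel of `ι` and an irreducible motive.** -/
theorem iota_prim (X Y : 𝒱.Obj) (hn : ∀ n, HomEqNum W (pw X n)) {m : ℕ}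
    (e : W.H ((pw X m).prod (pw X m))) (he : e ∈ cycleImage W _)
    (hee : composite W e e = e) (hirr : IrreducibleIn IsAlgClass e) :
    (∀ x : W.K ⊗[ℚ] cycleImage W (Y.prod (pw X m)), iota W _ x = 0 →
      compK W Y (pw X m) (pw X m) x (1 ⊗ₜ ⟨e, he⟩) = 0) ∨
    ∀ n : ℕ, DimAtLeast W.K (LinearMap.ker (iota W (Y.prod (pw X n))))
      (rankBound (corrRank e) (finrank W.K (W.H X)) (cycRank ops (pw X n)) m n) := by
  have hX : ∀ n, (data W).NumNil (pw X n) := fun n =>
    data_numNil ((homEqNum_iso (pwAdd X n n)).2 (hn _))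
  have hcl : (data W).cl (X := pw X m) (Y := pw X m) (1 ⊗ₜ ⟨e, he⟩) = e := by
    change iota W _ (1 ⊗ₜ _) = _
    rw [iota_tmul, one_smul]
  have h := Pool.Agent.X312.FK.prim_zero (data_isChow (W := W)) (kerMod_isFunctor Y) X hX hn
    (m := m) (1 ⊗ₜ ⟨e, he⟩) (by
      change compK W _ _ _ _ _ = _
      rw [compK_tmul, one_mul]
      congr 1
      exact Subtype.ext hee) (by rw [hcl]; exact hirr)
  rw [hcl] at h
  rcases h with h | h
  · left
    intro x hx
    exact congrArg Subtype.val (h (⟨x, hx⟩ : LinearMap.ker (iota W (Y.prod (pw X m)))))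
  · right
    exact h

end Pool.Agent.X312.IO
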